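import Mathlib
import Pool.Agent.Helper997.NeST

/-!
Strongly chordal graphs need not be NeST graphs.
-/

namespace Pool.Agent.Results.MP_64e20d_co.Main

open Metric Set Pool.Agent.Helper997.NeST

/-- A graph is chordal if it has no induced cycle of length at least 4. -/
def IsChordal {V : Type} (G : SimpleGraph V) : Prop :=
  ∀ n, 4 ≤ n → IsEmpty (SimpleGraph.cycleGraph n ↪g G)

/-- The relation generating the adjacency of the `k`-sun. -/
def sunRel (k : ℕ) : ZMod k ⊕ ZMod k → ZMod k ⊕ ZMod k → Prop
  | .inl _, .inl _ => True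
  | .inl j, .inr i => j = i ∨ j = i + 1
  | .inr _, _ => False

/-- The `k`-sun: a clique `u_j = inl j`, an independent set `w_i = inr i`, with `w_i` adjacent
exactly to `u_i` and `u_{i+1}` (indices modulo `k`). -/
def sun (k : ℕ) : SimpleGraph (ZMod k ⊕ ZMod k) := SimpleGraph.fromRel (sunRel k)

/-- A graph is strongly chordal if it is chordal and contains no `k`-sun, `k ≥ 3`, as an induced
subgraph. -/
def IsStronglyChordal {V : Type} (G : SimpleGraph V) : Prop :=
  IsChordal G ∧ ∀ k, 3 ≤ k → IsEmpty (sun k ↪g G)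

/-- Replace every vertex by two adjacent twins. -/
def doubled {V : Type} (G : SimpleGraph V) : SimpleGraph (V × Bool) where
  Adj x y := G.Adj x.1 y.1 ∨ (x.1 = y.1 ∧ x.2 ≠ y.2)
  symm := ⟨fun x y h => by
    rcases h with h | ⟨h1, h2⟩
    · exact Or.inl h.symm
    · exact Or.inr ⟨h1.symm, h2.symm⟩⟩
  loopless := ⟨fun x h => by
    rcases h with h | ⟨_, h2⟩
    · exact G.loopless.irrefl _ h
    · exact h2 rfl⟩

section Grid

variable {p q : ℕ}

/-- The vertices of the clique. -/
def IsCl : Vtx p q → Prop
  | .a _ _ => True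
  | .α _ => True
  | _ => False

lemma adj_cl {x y : Vtx p q} (hx : IsCl x) (hy : IsCl y) (hne : x ≠ y) :
    (gridGraph p q).Adj x y := by
  cases x <;> cases y <;> simp_all [gridGraph, link, IsCl]

lemma cl_of_adj {x y : Vtx p q} (hx : ¬ IsCl x) (h : (gridGraph p q).Adj x y) : IsCl y := by
  cases x <;> cases y <;> simp_all [gridGraph, link, IsCl]

/-- Two different clique vertices of the doubled graph are adjacent. -/
lemma dbl_cl {x y : Vtx p q × Bool} (hx : IsCl x.1) (hy : IsCl y.1) (hne : x ≠ y) :
    (doubled (gridGraph p q)).Adj x y := by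
  by_cases h : x.1 = y.1
  · exact Or.inr ⟨h, fun e => hne (Prod.ext h e)⟩
  · exact Or.inl (adj_cl hx hy h)

/-- The vertices outside the clique are simplicial in the doubled graph. -/
lemma dbl_simplicial {x y z : Vtx p q × Bool} (hx : ¬ IsCl x.1)
    (hxy : (doubled (gridGraph p q)).Adj x y) (hxz : (doubled (gridGraph p q)).Adj x z)
    (hne : y ≠ z) : (doubled (gridGraph p q)).Adj y z := by
  rcases hxy with h1 | ⟨h1, h1'⟩ <;> rcases hxz with h2 | ⟨h2, h2'⟩
  · exact dbl_cl (cl_of_adj hx h1) (cl_of_adj hx h2) hne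
  · left
    rw [← h2]
    exact h1.symm
  · left
    rw [← h1]
    exact h2
  · exfalso
    apply hne
    apply Prod.ext (h1.symm.trans h2)
    revert h1' h2'
    cases x.2 <;> cases y.2 <;> cases z.2 <;> simp

lemma fin_facts (m : ℕ) : (1 + 1 : Fin (m + 4)) ≠ 0 ∧ (1 + 1 : Fin (m + 4)) ≠ 1 ∧
    (1 + 1 + 1 : Fin (m + 4)) ≠ 0 := by
  have h1 : ((1 : Fin (m + 4)) : ℕ) = 1 := by
    rw [Fin.val_one']
    exact Nat.mod_eq_of_lt (by omega)
  have h2 : ((1 + 1 : Fin (m + 4)) : ℕ) = 2 := by
    rw [Fin.val_add, h1]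
    exact Nat.mod_eq_of_lt (by omega)
  have h3 : ((1 + 1 + 1 : Fin (m + 4)) : ℕ) = 3 := by
    rw [Fin.val_add, h2, h1]
    exact Nat.mod_eq_of_lt (by omega)
  refine ⟨?_, ?_, ?_⟩
  · intro e
    rw [e] at h2
    simp at h2
  · intro e
    rw [e, h1] at h2
    omega
  · intro e
    rw [e] at h3
    simp at h3

theorem doubled_chordal : IsChordal (doubled (gridGraph p q)) := by
  intro n hn
  refine ⟨fun φ => ?_⟩
  obtain ⟨m, rfl⟩ : ∃ m, n = m + 4 := ⟨n - 4, by omega⟩
  obtain ⟨f1, f2, f3⟩ := fin_facts m
  have nb : ∀ v : Fin (m + 4), v + 1 ≠ v - 1 := by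
    intro v e
    apply f1
    have : v + 1 - (v - 1) = 0 := by rw [e, sub_self]
    rw [← this]
    abel
  have nadj : ∀ v : Fin (m + 4), ¬ (SimpleGraph.cycleGraph (m + 4)).Adj (v + 1) (v - 1) := by
    intro v e
    rw [SimpleGraph.cycleGraph_adj] at e
    rcases e with e | e
    · have h : (1 + 1 : Fin (m + 4)) = v + 1 - (v - 1) := by abel
      exact f2 (h.trans e)
    · apply f3
      have h : (1 + 1 + 1 : Fin (m + 4)) = 1 - (v - 1 - (v + 1)) := by abel
      rw [h, e, sub_self]
  have hcl : ∀ v, IsCl (φ v).1 := by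
    intro v
    by_contra hv
    apply nadj v
    rw [← φ.map_rel_iff]
    apply dbl_simplicial hv
    · rw [φ.map_rel_iff]
      exact Or.inr (by abel)
    · rw [φ.map_rel_iff]
      exact Or.inl (by abel)
    · exact fun e => nb v (φ.injective e)
  apply nadj 0
  rw [← φ.map_rel_iff]
  exact dbl_cl (hcl _) (hcl _) (fun e => nb 0 (φ.injective e))

lemma zmod_facts {k : ℕ} (hk : 3 ≤ k) : (1 : ZMod k) ≠ 0 ∧ (1 + 1 : ZMod k) ≠ 0 := by
  constructor
  · intro h
    have : ((1 : ℕ) : ZMod k) = 0 := by exact_mod_cast h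
    rw [ZMod.natCast_eq_zero_iff] at this
    have := Nat.le_of_dvd (by norm_num) this
    omega
  · intro h
    have : ((2 : ℕ) : ZMod k) = 0 := by
      push_cast
      rw [← h]
      norm_num
    rw [ZMod.natCast_eq_zero_iff] at this
    have := Nat.le_of_dvd (by norm_num) this
    omega

lemma sun_adj_uw {k : ℕ} (j i : ZMod k) : (sun k).Adj (.inl j) (.inr i) ↔ j = i ∨ j = i + 1 := by
  simp [sun, sunRel]

lemma sun_adj_ww {k : ℕ} (j i : ZMod k) : ¬ (sun k).Adj (.inr j) (.inr i) := by
  simp [sun, sunRel]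

lemma nbr_a {i : Fin p} {j : Fin q} {x : Vtx p q} (hx : ¬ IsCl x)
    (h : (gridGraph p q).Adj (.a i j) x) : x = .b i j ∨ x = .β i := by
  cases x <;> simp_all [gridGraph, link, IsCl]

lemma nbr_b {i : Fin p} {j : Fin q} {x : Vtx p q} (h : (gridGraph p q).Adj x (.b i j)) :
    x = .a i j ∨ x = .α j := by
  cases x <;> simp_all [gridGraph, link]

lemma adj_αβ (j : Fin q) (i : Fin p) : (gridGraph p q).Adj (.α j) (.β i) := by
  simp [gridGraph, link]

theorem doubled_sun_free (k : ℕ) (hk : 3 ≤ k) : IsEmpty (sun k ↪g doubled (gridGraph p q)) := by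
  refine ⟨fun φ => ?_⟩
  obtain ⟨z1, z2⟩ := zmod_facts hk
  set U : ZMod k → Vtx p q × Bool := fun j => φ (.inl j) with hU
  set W : ZMod k → Vtx p q × Bool := fun i => φ (.inr i) with hW
  have hUW : ∀ j i, (doubled (gridGraph p q)).Adj (U j) (W i) ↔ j = i ∨ j = i + 1 := by
    intro j i
    rw [hU, hW]
    simp only
    rw [φ.map_rel_iff, sun_adj_uw]
  have hWW : ∀ j i, ¬ (doubled (gridGraph p q)).Adj (W j) (W i) := by
    intro j i
    rw [hW]
    simp only
    rw [φ.map_rel_iff]
    exact sun_adj_ww j i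
  have hWinj : ∀ i j, W i = W j → i = j := by
    intro i j h
    have := φ.injective h
    exact Sum.inr_injective this
  have hUinj : ∀ i j, U i = U j → i = j := by
    intro i j h
    have := φ.injective h
    exact Sum.inl_injective this
  -- the clique part of the sun lies in the clique
  have clU : ∀ j, IsCl (U j).1 := by
    intro j
    by_contra hj
    have h1 : (doubled (gridGraph p q)).Adj (U j) (W j) := (hUW j j).mpr (Or.inl rfl)
    have h2 : (doubled (gridGraph p q)).Adj (U j) (W (j - 1)) :=
      (hUW j (j - 1)).mpr (Or.inr (by abel))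
    apply hWW j (j - 1)
    apply dbl_simplicial hj h1 h2
    intro e
    have := hWinj _ _ e
    apply z1
    have h3 : (1 : ZMod k) = j - (j - 1) := by abel
    rw [h3, ← this, sub_self]
  -- the independent part lies outside the clique
  have clW : ∀ i, ¬ IsCl (W i).1 := by
    intro i hi
    have hn : ¬ (doubled (gridGraph p q)).Adj (U (i + 1 + 1)) (W i) := by
      rw [hUW]
      rintro (h | h)
      · apply z2
        have h3 : (1 + 1 : ZMod k) = i + 1 + 1 - i := by abel
        rw [h3, h, sub_self]
      · apply z1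
        have h3 : (1 : ZMod k) = i + 1 + 1 - (i + 1) := by abel
        rw [h3, h, sub_self]
    apply hn
    apply dbl_cl (clU _) hi
    intro e
    have := φ.injective e
    exact absurd this (by simp)
  have adjG : ∀ j i, (gridGraph p q).Adj (U j).1 (W i).1 ↔ j = i ∨ j = i + 1 := by
    intro j i
    rw [← hUW j i]
    constructor
    · intro h
      exact Or.inl h
    · rintro (h | ⟨h, _⟩)
      · exact h
      · exact absurd (h ▸ clU j) (clW i)
  -- different members of the two parts of the sun are not twins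
  have twU : ∀ j j', (U j).1 = (U j').1 → j = j' := by
    intro j j' h
    have h1 := (adjG j j).mpr (Or.inl rfl)
    have h2 := (adjG j (j - 1)).mpr (Or.inr (by abel))
    rw [h, adjG] at h1 h2
    rcases h1 with h1 | h1
    · exact h1.symm
    · rcases h2 with h2 | h2
      · exfalso
        apply z2
        have h3 : (1 + 1 : ZMod k) = j + 1 - (j - 1) := by abel
        rw [h3, ← h1, ← h2, sub_self]
      · rw [h2]
        abel
  have twW : ∀ j j', (W j).1 = (W j').1 → j = j' := by
    intro j j' h
    by_contra hne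
    apply hWW j j'
    refine Or.inr ⟨h, fun e => hne (hWinj _ _ (Prod.ext h e))⟩
  have s1 : ∀ j : ZMod k, j ≠ j - 1 := by
    intro j e
    apply z1
    have h3 : (1 : ZMod k) = j - (j - 1) := by abel
    rw [h3, ← e, sub_self]
  have s2 : ∀ j : ZMod k, j + 1 ≠ j := by
    intro j e
    apply z1
    have h3 : (1 : ZMod k) = j + 1 - j := by abel
    rw [h3, e, sub_self]
  have s3 : ∀ j : ZMod k, j + 1 ≠ j - 1 := by
    intro j e
    apply z2
    have h3 : (1 + 1 : ZMod k) = j + 1 - (j - 1) := by abel
    rw [h3, e, sub_self]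
  have s4 : ∀ j : ZMod k, j - 1 + 1 = j := by
    intro j
    abel
  -- no clique vertex of the sun is one of the `a i j`
  have noa : ∀ j x y, (U j).1 ≠ .a x y := by
    intro j x y hj
    have h1 := (adjG j j).mpr (Or.inl rfl)
    have h2 := (adjG j (j - 1)).mpr (Or.inr (s4 j).symm)
    rw [hj] at h1 h2
    rcases nbr_a (clW j) h1 with e1 | e1 <;> rcases nbr_a (clW (j - 1)) h2 with e2 | e2
    · exact s1 j (twW _ _ (e1.trans e2.symm))
    · have h3 := (adjG (j + 1) j).mpr (Or.inr rfl)
      rw [e1] at h3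
      rcases nbr_b h3 with e3 | e3
      · exact s2 j (twU _ _ (e3.trans hj.symm))
      · have h4 : (gridGraph p q).Adj (U (j + 1)).1 (W (j - 1)).1 := by
          rw [e3, e2]
          exact adj_αβ y x
        rw [adjG, s4] at h4
        rcases h4 with h4 | h4
        · exact s3 j h4
        · exact s2 j h4
    · have h3 := (adjG (j - 1) (j - 1)).mpr (Or.inl rfl)
      rw [e2] at h3
      rcases nbr_b h3 with e3 | e3
      · exact s1 j (twU _ _ (hj.trans e3.symm))
      · have h4 : (gridGraph p q).Adj (U (j - 1)).1 (W j).1 := by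
          rw [e3, e1]
          exact adj_αβ y x
        rw [adjG] at h4
        rcases h4 with h4 | h4
        · exact s1 j h4.symm
        · exact s3 j h4.symm
    · exact s1 j (twW _ _ (e1.trans e2.symm))
  have hα : ∀ j, ∃ y, (U j).1 = .α y := by
    intro j
    have h1 := clU j
    have h2 := noa j
    cases h : (U j).1 with
    | a x y => exact absurd h (h2 x y)
    | b x y => rw [h] at h1; exact absurd h1 (by simp [IsCl])
    | α y => exact ⟨y, rfl⟩
    | β x => rw [h] at h1; exact absurd h1 (by simp [IsCl])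
  -- the vertex `W 0`
  have hn : ¬ (gridGraph p q).Adj (U (0 + 1 + 1)).1 (W 0).1 := by
    rw [adjG]
    rintro (h | h)
    · exact z2 (by rw [zero_add] at h; exact h)
    · exact s2 (0 + 1) h
  have hw := clW 0
  cases h : (W 0).1 with
  | a x y => rw [h] at hw; exact hw trivial
  | α y => rw [h] at hw; exact hw trivial
  | β x =>
    obtain ⟨y, hy⟩ := hα (0 + 1 + 1)
    apply hn
    rw [hy, h]
    exact adj_αβ y x
  | b x y =>
    have h1 := (adjG 0 0).mpr (Or.inl rfl)
    have h2 := (adjG (0 + 1) 0).mpr (Or.inr rfl)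
    rw [h] at h1 h2
    have e1 : (U 0).1 = .α y := by
      rcases nbr_b h1 with e | e
      · exact absurd e (noa _ _ _)
      · exact e
    have e2 : (U (0 + 1)).1 = .α y := by
      rcases nbr_b h2 with e | e
      · exact absurd e (noa _ _ _)
      · exact e
    exact s2 0 (twU _ _ (e2.trans e1.symm))

theorem doubled_stronglyChordal : IsStronglyChordal (doubled (gridGraph p q)) :=
  ⟨doubled_chordal, doubled_sun_free⟩

end Grid

/-- If the graph with all vertices doubled is a NeST graph, then in every pair of twins one vertex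
has tolerance at most the size of its subtree; this gives a function pair as for bounded
representations. -/
lemma rep_of_doubled {V : Type} {G : SimpleGraph V} (h : IsNeST (doubled G)) :
    ∃ (D : V → V → ℝ) (τ : V → ℝ), TreeLike D ∧
      ∀ x y, x ≠ y → (G.Adj x y ↔ D x y ≤ max (τ x) (τ y)) := by
  obtain ⟨T, _, hT, c, r, t, hrep⟩ := h
  have hex : ∀ v : V, ∃ s : Bool, t (v, s) ≤ 2 * r (v, s) := by
    intro v
    have hne : ((v, false) : V × Bool) ≠ (v, true) := by simp
    have hadj : (doubled G).Adj (v, false) (v, true) := Or.inr ⟨rfl, by simp⟩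
    have h1 := (hrep.adj_iff _ _ hne).mp hadj
    rw [adj_iff_dist hT hrep.radius_pos hrep.tolerance_pos hrep.size] at h1
    have h2 := h1.trans (min_le_left _ _)
    rcases min_le_iff.mp h2 with h3 | h3
    · exact ⟨false, h3.trans (min_le_left _ _)⟩
    · exact ⟨true, h3.trans (min_le_right _ _)⟩
  choose s hs using hex
  refine bounded_rep hT (c := fun v => c (v, s v)) (r := fun v => r (v, s v))
    (t := fun v => t (v, s v)) (fun v => hrep.radius_pos _) (fun v => hrep.tolerance_pos _)
    (fun v => hrep.size _) ?_ hs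
  intro x y hxy
  have hne : ((x, s x) : V × Bool) ≠ (y, s y) := fun e => hxy (Prod.ext_iff.mp e).1
  rw [← hrep.adj_iff _ _ hne]
  constructor
  · intro h
    exact Or.inl h
  · rintro (h | ⟨h, _⟩)
    · exact h
    · exact absurd h hxy

/-- The strongly chordal graph obtained by doubling a large grid graph is not a NeST graph. -/
theorem doubled_not_nest {p q : ℕ} (hp : 8 < p) (hq : p * (p * 8) * 2 < q) :
    ¬ IsNeST (doubled (gridGraph p q)) := by
  intro h
  obtain ⟨D, τ, hD, hadj⟩ := rep_of_doubled h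
  exact grid_no_rep hp hq D τ hD hadj

lemma nest_of_bounded {V : Type} {G : SimpleGraph V} (h : IsBoundedNeST G) : IsNeST G := by
  obtain ⟨T, _, hT, c, r, t, hrep, _⟩ := h
  exact ⟨T, _, hT, c, r, t, hrep⟩

/-- None of the four inclusions holds: there are chordal graphs that are not NeST, chordal graphs
that are not bounded NeST, strongly chordal graphs that are not NeST, and strongly chordal graphs
that are not bounded NeST. -/
theorem result :
    (¬ ∀ (V : Type) [Fintype V] (G : SimpleGraph V), IsChordal G → IsNeST G) ∧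
    (¬ ∀ (V : Type) [Fintype V] (G : SimpleGraph V), IsChordal G → IsBoundedNeST G) ∧
    (¬ ∀ (V : Type) [Fintype V] (G : SimpleGraph V), IsStronglyChordal G → IsNeST G) ∧
    (¬ ∀ (V : Type) [Fintype V] (G : SimpleGraph V), IsStronglyChordal G → IsBoundedNeST G) := by
  have key : ¬ IsNeST (doubled (gridGraph 9 1297)) :=
    doubled_not_nest (by norm_num) (by norm_num)
  have sc : IsStronglyChordal (doubled (gridGraph 9 1297)) := doubled_stronglyChordal
  refine ⟨fun h => key (h _ _ sc.1), fun h => key (nest_of_bounded (h _ _ sc.1)),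
    fun h => key (h _ _ sc), fun h => key (nest_of_bounded (h _ _ sc))⟩

end Pool.Agent.Results.MP_64e20d_co.Main
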